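import Pool.Agent.J4.H17.SR.Defs

/-! The rank one abelian Stark conjecture in Tate's form for an archimedean place, in the form which
does not assert the continuation of the partial zeta functions. -/

set_option autoImplicit false

namespace Pool.Agent.J4.H17.SR2
open NumberField
open Pool.Agent.K4H33.SK (Qbar GQ Fixes IsZeta AbelianRoot IsTorsionOrder)
open Pool.Agent.K4H33.SK.Stmt (Ideals Cop prd cnt)
open Pool.Agent.J4.H17.SR (Sub localDegree NotAbove IsPrimeIdeal)

/-- The `n`-th power of the rank one abelian Stark conjecture in Tate's form, for the abelian extension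
`L` of the number field `K`, the archimedean place `v` of `K` given by `ι`, and the set `S` of the
archimedean places and of the primes dividing `𝔣`: if `W` is the number of roots of unity of `L` and
`Z σ` the continuation of the partial zeta function `ζ_S(σ, s)`, there is a unit `ε` of `L` of absolute
value one at all archimedean places not above `v` with `log |σ ε|_v = - n W ζ_S'(σ, 0)` (and
`ζ_S(σ, 0) = 0`) for all automorphisms `σ` over `K`, whose `W`-th roots generate an abelian extension of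
`K`. For `n = 1` this is the conjecture. -/
def StarkUpTo (n : ℕ) (ι : Qbar →+* ℂ) (K L : Sub) [NumberField K] (𝔣 : Ideals K)
    (art : Ideals K → GQ) : Prop :=
  ∀ W : ℕ, IsTorsionOrder L W → ∀ Z : GQ → ℂ → ℂ,
    (∀ σ : GQ, Fixes K σ → IsZeta (cnt K L 𝔣 art σ) (Z σ)) →
    ∃ ε : Qbar, ε ∈ L ∧ ε ≠ 0 ∧
      (∀ σ : GQ, Fixes K σ → Z σ 0 = 0 ∧
        ((localDegree ι K * Real.log ‖ι (σ ε)‖ : ℝ) : ℂ) = -((n * W : ℕ) : ℂ) * deriv (Z σ) 0) ∧
      IsIntegral ℤ ε ∧ IsIntegral ℤ ε⁻¹ ∧ (∀ w : Qbar →+* ℂ, NotAbove ι K w → ‖w ε‖ = 1) ∧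
      AbelianRoot K W ε

/-- The `n`-th power of the conjecture for `L/K` and larger sets of places. For `N = 1`: the
Frobenius automorphisms of the primes `𝔮` not in `S` such that the statement holds for `S ∪ {𝔮}`
generate the Galois group of `L/K`, that is, for every proper subgroup `U` there is such a prime with
Frobenius automorphism not in `U`. For `N > 1`: the same with primes `𝔮` such that the statement for
`N - 1` holds for `S ∪ {𝔮}`. -/
def LargeSets : ℕ → ℕ → (Qbar →+* ℂ) → (K : Sub) → Sub → [NumberField K] → Ideals K →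
    (Ideals K → GQ) → Prop
  | 0, n, ι, K, L, _, 𝔣, art => StarkUpTo n ι K L 𝔣 art
  | N + 1, n, ι, K, L, _, 𝔣, art => ∀ U : Subgroup GQ, (∀ σ : GQ, Fixes L σ → σ ∈ U) →
      (∃ σ : GQ, Fixes K σ ∧ σ ∉ U) → ∃ 𝔮 : Ideals K, IsPrimeIdeal K 𝔮 ∧
      Cop K 𝔮 𝔣 ∧ art 𝔮 ∉ U ∧ LargeSets N n ι K L (prd K 𝔣 𝔮) art

end Pool.Agent.J4.H17.SR2
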