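import Pool.Agent.J4.H17.SR.Final
import Pool.Agent.J4.H17.SR.DOWN
import Pool.Agent.J4.H17.SR2.Defs

/-! The two forms of the conjecture, with and without the existence of the continuation. -/

set_option autoImplicit false

namespace Pool.Agent.J4.H17.SR2
open NumberField
open Pool.Agent.K4H33.SK (Qbar GQ Fixes IsZeta AbelianRoot IsTorsionOrder fixes_iff agree_iff
  isZeta_deriv)
open Pool.Agent.K4H33.SK.Stmt (Ideals Cop prd cnt IsArtin)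
open Pool.Agent.J4.H17.SR (Sub localDegree NotAbove IsPrimeIdeal AbelianOver DegreePrimeTo
  CyclicSylow TwoExtension Ok nm cG cG_eq cnt_sum comb)
open Pool.Agent.J4.H99.SRins (exists_quotient exists_torsion)

lemma all_of_ex {n : ℕ} {ι : Qbar →+* ℂ} {K L : Sub} [NumberField K] {𝔣 : Ideals K}
    {art : Ideals K → GQ} (h : SR.StarkUpTo n ι K L 𝔣 art) : StarkUpTo n ι K L 𝔣 art := by
  intro W hW Z hZ
  obtain ⟨Z', ε, h1, h2, h3, h4, h5, h6, h7⟩ := h W hW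
  refine ⟨ε, h1, h2, fun σ hσ => ?_, h4, h5, h6, h7⟩
  obtain ⟨h8, h9, h10⟩ := h3 σ hσ
  obtain ⟨h11, h12⟩ := isZeta_deriv (hZ σ hσ) h8 fun _ _ => rfl
  rw [h11, h12]
  exact ⟨h9, h10⟩

lemma ex_of_all {n : ℕ} {ι : Qbar →+* ℂ} {K L : Sub} [NumberField K] {𝔣 : Ideals K}
    {art : Ideals K → GQ} (hc : ∀ σ : GQ, Fixes K σ → ∃ Z, IsZeta (cnt K L 𝔣 art σ) Z)
    (h : StarkUpTo n ι K L 𝔣 art) : SR.StarkUpTo n ι K L 𝔣 art := by
  classical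
  intro W hW
  have h0 : ∀ σ : GQ, Fixes K σ → IsZeta (cnt K L 𝔣 art σ)
      ((fun σ => if hσ : Fixes K σ then (hc σ hσ).choose else 0) σ) := by
    intro σ hσ
    have h1 : (fun σ => if hσ : Fixes K σ then (hc σ hσ).choose else 0) σ = (hc σ hσ).choose :=
      dif_pos hσ
    rw [h1]
    exact (hc σ hσ).choose_spec
  obtain ⟨ε, h1, h2, h3, h4, h5, h6, h7⟩ := h W hW _ h0
  exact ⟨_, ε, h1, h2, fun σ hσ => ⟨h0 σ hσ, (h3 σ hσ).1, (h3 σ hσ).2⟩, h4, h5, h6, h7⟩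

section
variable {ι : Qbar →+* ℂ} {K H : Sub} [NumberField K] {art : Ideal (𝓞 K) → GQ}
  {G : Type} [CommGroup G] [Fintype G] {π : K.fixingSubgroup →* G} {rep : G → K.fixingSubgroup}

/-- The subgroup belonging to a subfield. -/
lemma exists_subgroup (hπ : ∀ σ : K.fixingSubgroup, π σ = 1 ↔ Fixes H σ) {L : Sub} (hLH : L ≤ H) :
    ∃ J : Subgroup G, ∀ σ : K.fixingSubgroup, Fixes L σ ↔ π σ ∈ J := by
  refine ⟨(L.fixingSubgroup.subgroupOf K.fixingSubgroup).map π, fun σ => ⟨fun h => ?_, ?_⟩⟩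
  · exact ⟨σ, fixes_iff.1 h, rfl⟩
  · rintro ⟨τ, hτ, hτ2⟩
    have h1 : Fixes H ((τ⁻¹ * σ : K.fixingSubgroup) : GQ) :=
      (hπ (τ⁻¹ * σ)).1 (by rw [map_mul, map_inv, hτ2, inv_mul_cancel])
    have h2 : Fixes L ((τ : GQ) * ((τ⁻¹ * σ : K.fixingSubgroup) : GQ)) :=
      (fixes_iff.2 hτ : Fixes L (τ : GQ)).mul (h1.mono hLH)
    have h3 : (τ : GQ) * ((τ⁻¹ * σ : K.fixingSubgroup) : GQ) = σ := by
      change (τ : GQ) * ((τ : GQ)⁻¹ * (σ : GQ)) = σ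
      rw [mul_inv_cancel_left]
    rwa [h3] at h2

lemma cont_sub (hπ : ∀ σ : K.fixingSubgroup, π σ = 1 ↔ Fixes H σ) (hrep : ∀ g, π (rep g) = g)
    {𝔤 : Ideal (𝓞 K)} (hok : Ok H art rep 𝔤) {L : Sub} (hLH : L ≤ H) :
    ∀ σ : GQ, Fixes K σ → ∃ Z, IsZeta (Pool.Agent.K4H33.SK.cnt K L 𝔤 art σ) Z := by
  classical
  intro σ hσ
  obtain ⟨J, hJ⟩ := exists_subgroup (G := G) hπ hLH
  exact (comb Finset.univ
    (fun g : G => if (π ⟨σ, fixes_iff.1 hσ⟩)⁻¹ * g ∈ J then (1 : ℂ) else 0)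
    (cG H art rep 𝔤) (Pool.Agent.K4H33.SK.cnt K L 𝔤 art σ) (fun g _ => hok.cont g) (by
      intro k _
      rw [cnt_sum K H L 𝔤 art hok.fix hLH G π hπ J hJ rep hrep ⟨σ, fixes_iff.1 hσ⟩ k]
      push_cast
      refine Finset.sum_congr rfl fun g _ => ?_
      unfold cG
      split_ifs <;> simp)).1

lemma large_ex (hπ : ∀ σ : K.fixingSubgroup, π σ = 1 ↔ Fixes H σ) (hrep : ∀ g, π (rep g) = g)
    {L : Sub} (hLH : L ≤ H) (n N : ℕ) : ∀ 𝔤 : Ideal (𝓞 K), Ok H art rep 𝔤 →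
      LargeSets N n ι K L 𝔤 art → SR.LargeSets N n ι K L 𝔤 art := by
  induction N with
  | zero =>
    intro 𝔤 hok h
    exact ex_of_all (cont_sub hπ hrep hok hLH) h
  | succ N ih =>
    intro 𝔤 hok h U hU hU2
    obtain ⟨𝔮, hq, hqg, hqU, h1⟩ := h U hU hU2
    exact ⟨𝔮, hq, hqg, hqU, ih _ (hok.next hπ hrep hq.1 hq.2 hqg) h1⟩

end

/-- The main theorem, without the hypothesis on continuation. -/
theorem main (ι : Qbar →+* ℂ) (K H : Sub) [NumberField K] [FiniteDimensional ℚ H] (hKH : K ≤ H)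
    (hab : AbelianOver K H) (hw : ∃ w : Qbar →+* ℂ, NotAbove ι K w ∧ ∀ x ∈ K, (w x).im = 0)
    (𝔣 : Ideals K) (art : Ideals K → GQ) (hart : IsArtin K H 𝔣 art)
    (h : ∀ ℓ : ℕ, ℓ.Prime → ∀ L : Sub, K ≤ L → L ≤ H → DegreePrimeTo ℓ L H →
      (∀ q : ℕ, q.Prime → q ≠ ℓ → CyclicSylow q K L) →
        ∃ n : ℕ, ¬ ℓ ∣ n ∧ (StarkUpTo n ι K L 𝔣 art ∨
          (¬ (ℓ = 2 ∧ TwoExtension K L) ∧ ∃ N, LargeSets N n ι K L 𝔣 art))) :
    StarkUpTo 1 ι K H 𝔣 art := by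
  intro W hW Z hZ
  obtain ⟨G, _, _, π, hπs, hπ, hJ⟩ := exists_quotient K H hKH hab
  choose rep hrep using hπs
  have hok : Ok H art rep 𝔣 :=
    ⟨fun g => ⟨_, hZ (rep g) (fixes_iff.2 (rep g).2)⟩, hart.fix, hart.mul⟩
  refine all_of_ex (SR.main ι K H hKH hab hw 𝔣 art hart (fun σ hσ => ⟨Z σ, hZ σ hσ⟩) ?_) W hW Z hZ
  intro ℓ hℓ L hKL hLH h1 h2
  obtain ⟨n, hn, h3⟩ := h ℓ hℓ L hKL hLH h1 h2
  refine ⟨n, hn, ?_⟩
  rcases h3 with h3 | ⟨h3, N, h4⟩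
  · exact Or.inl (ex_of_all (cont_sub hπ hrep hok hLH) h3)
  · exact Or.inr ⟨h3, N, large_ex hπ hrep hLH n N 𝔣 hok h4⟩

/-- The conjecture passes to subfields (Tate). -/
theorem stark_down (ι : Qbar →+* ℂ) (K L H : Sub) [NumberField K] [FiniteDimensional ℚ H]
    (hKL : K ≤ L) (hLH : L ≤ H) (hab : AbelianOver K H) (𝔣 : Ideals K) (art : Ideals K → GQ)
    (hart : IsArtin K H 𝔣 art)
    (hcont : ∀ σ : GQ, Fixes K σ → ∃ Z, IsZeta (cnt K H 𝔣 art σ) Z) (n : ℕ)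
    (h : StarkUpTo n ι K H 𝔣 art) : StarkUpTo n ι K L 𝔣 art :=
  all_of_ex (SR.stark_down ι K L H hKL hLH hab 𝔣 art hart n (ex_of_all hcont h))

end Pool.Agent.J4.H17.SR2
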