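import Pool.Agent.J4.H17.SR2.Adapt
import Pool.Agent.J4.H99.SRins.Cont

/-! The main theorem for all number fields; the real place is needed for larger sets of places only. -/

set_option autoImplicit false

namespace Pool.Agent.J4.H17.SR2
open NumberField
open Pool.Agent.K4H33.SK (Qbar GQ Fixes IsZeta fixes_iff)
open Pool.Agent.K4H33.SK.Stmt (Ideals Cop prd cnt IsArtin)
open Pool.Agent.J4.H17.SR (Sub NotAbove AbelianOver DegreePrimeTo CyclicSylow TwoExtension Ok)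
open Pool.Agent.J4.H99.SRins (exists_quotient)

/-- The main theorem, without the hypothesis on continuation, for all `K`. -/
theorem main_all (ι : Qbar →+* ℂ) (K H : Sub) [NumberField K] [FiniteDimensional ℚ H]
    (hKH : K ≤ H) (hab : AbelianOver K H)
    (𝔣 : Ideals K) (art : Ideals K → GQ) (hart : IsArtin K H 𝔣 art)
    (h : ∀ ℓ : ℕ, ℓ.Prime → ∀ L : Sub, K ≤ L → L ≤ H → DegreePrimeTo ℓ L H →
      (∀ q : ℕ, q.Prime → q ≠ ℓ → CyclicSylow q K L) →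
        ∃ n : ℕ, ¬ ℓ ∣ n ∧ (StarkUpTo n ι K L 𝔣 art ∨
          ((∃ w : Qbar →+* ℂ, NotAbove ι K w ∧ ∀ x ∈ K, (w x).im = 0) ∧
            ¬ (ℓ = 2 ∧ TwoExtension K L) ∧ ∃ N, LargeSets N n ι K L 𝔣 art))) :
    StarkUpTo 1 ι K H 𝔣 art := by
  by_cases hw : ∃ w : Qbar →+* ℂ, NotAbove ι K w ∧ ∀ x ∈ K, (w x).im = 0
  · refine main ι K H hKH hab hw 𝔣 art hart ?_
    intro ℓ hℓ L hKL hLH h1 h2
    obtain ⟨n, hn, h3⟩ := h ℓ hℓ L hKL hLH h1 h2
    exact ⟨n, hn, h3.imp id fun h4 => h4.2⟩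
  · intro W hW Z hZ
    obtain ⟨G, _, _, π, hπs, hπ, hJ⟩ := exists_quotient K H hKH hab
    choose rep hrep using hπs
    have hok : Ok H art rep 𝔣 :=
      ⟨fun g => ⟨_, hZ (rep g) (fixes_iff.2 (rep g).2)⟩, hart.fix, hart.mul⟩
    refine all_of_ex ((Pool.Agent.J4.H99.SRins.main_a ι K H hKH hab 𝔣 art hart).2 ?_) W hW Z hZ
    intro ℓ hℓ L hKL hLH h1 h2
    obtain ⟨n, hn, h3⟩ := h ℓ hℓ L hKL hLH h1 h2
    rcases h3 with h3 | ⟨h4, _⟩
    · exact ⟨n, hn, ex_of_all (cont_sub hπ hrep hok hLH) h3⟩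
    · exact absurd h4 hw

end Pool.Agent.J4.H17.SR2
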